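import Pool.Agent.Helper82.DG.Lay

/-!
# The layout of a grid: positions are distinct and no vertex lies on an edge
-/

set_option autoImplicit false
set_option linter.unusedSectionVars false

namespace Pool.Agent.Helper82.DG

open Pool.Agent.Helper18.RAC Complex

namespace LV

/-- `z` is between `u` and `v` -/
def Bt (u v z : ℝ) : Prop := (u < v → u < z ∧ z < v) ∧ (v < u → v < z ∧ z < u) ∧ (u = v → z = u)

theorem bt_of {u v z t : ℝ} (h0 : 0 < t) (h1 : t < 1) (h : z = u + t * (v - u)) : Bt u v z := by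
  refine ⟨fun huv => ?_, fun hvu => ?_, fun he => ?_⟩
  · have a1 : 0 < t * (v - u) := mul_pos h0 (by linarith)
    have a2 : 0 < (1 - t) * (v - u) := mul_pos (by linarith) (by linarith)
    exact ⟨by linarith, by nlinarith⟩
  · have a1 : 0 < t * (u - v) := mul_pos h0 (by linarith)
    have a2 : 0 < (1 - t) * (u - v) := mul_pos (by linarith) (by linarith)
    exact ⟨by nlinarith, by nlinarith⟩
  · rw [h, he]; ring

theorem seg_box {z a b : ℂ} (h : z ∈ openSegment ℝ a b) :
    Bt a.re b.re z.re ∧ Bt a.im b.im z.im ∧ Bt (a.re + a.im) (b.re + b.im) (z.re + z.im) := by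
  obtain ⟨p, q, hp, hq, hpq, rfl⟩ := h
  have hp' : p = 1 - q := by linarith
  subst hp'
  have e1 : ((1 - q) • a + q • b).re = a.re + q * (b.re - a.re) := by
    simp; ring
  have e2 : ((1 - q) • a + q • b).im = a.im + q * (b.im - a.im) := by
    simp; ring
  refine ⟨bt_of hq (by linarith) e1, bt_of hq (by linarith) e2, bt_of hq (by linarith) ?_⟩
  rw [e1, e2]; ring

theorem no_int {a b : ℕ} (h1 : (a : ℝ) < b) (h2 : (b : ℝ) < a + 1) : False := by
  have h1' : a < b := by exact_mod_cast h1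
  have h2' : b < a + 1 := by exact_mod_cast h2
  omega

theorem no_par {a b : ℕ} (h : (2 * a + 1 : ℝ) = 2 * b) : False := by
  have h' : 2 * a + 1 = 2 * b := by exact_mod_cast h
  omega

/-- the kinds of points of the layout -/
inductive Kd (M : ℕ) (n s e w : ℝ) : GX → ℝ → ℝ → Prop
  | xf : Kd M n s e w (.X false) 0 n
  | xt : Kd M n s e w (.X true) e 0
  | yf : Kd M n s e w (.Y false) 0 (-s)
  | yt : Kd M n s e w (.Y true) (-w) 0
  | pf (j : ℕ) : (j : ℝ) + 1 ≤ 2 * M → Kd M n s e w (.v (.P false j)) (j + 1) (-1)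
  | pt (j : ℕ) : (j : ℝ) + 1 ≤ 2 * M → Kd M n s e w (.v (.P true j)) (-1) (j + 1)
  | uf (c : ℕ) : (c : ℝ) + 1 ≤ M → Kd M n s e w (.v (.U false c)) (2 * c + 1) (2 * M + 2)
  | ut (c : ℕ) : (c : ℝ) + 1 ≤ M → Kd M n s e w (.v (.U true c)) (2 * M + 2) (2 * c + 1)
  | cf (j : ℕ) : (j : ℝ) + 2 ≤ 2 * M →
      Kd M n s e w (.v (.C false j false)) (j + 3 / 2) (-1 / 2)
  | cf' (j : ℕ) : (j : ℝ) + 2 ≤ 2 * M →
      Kd M n s e w (.v (.C false j true)) (j + 3 / 2) (-3 / 4)
  | ct (j : ℕ) : (j : ℝ) + 2 ≤ 2 * M →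
      Kd M n s e w (.v (.C true j false)) (-1 / 2) (j + 3 / 2)
  | ct' (j : ℕ) : (j : ℝ) + 2 ≤ 2 * M →
      Kd M n s e w (.v (.C true j true)) (-3 / 4) (j + 3 / 2)
  | q : Kd M n s e w (.v .Q) (2 * M + 1 / 4) (2 * M + 1 / 4)
  | d (c r : ℕ) : (c : ℝ) + 1 ≤ M → (r : ℝ) + 1 ≤ M →
      Kd M n s e w (.v (.D c r)) (2 * c + 2) (2 * r + 2)

theorem kd {M : ℕ} {n s e w : ℝ} : ∀ x : GX, x.ok M →
    Kd M n s e w x (layX M n s e w x).re (layX M n s e w x).im
  | .X false, _ => .xf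
  | .X true, _ => .xt
  | .Y false, _ => .yf
  | .Y true, _ => .yt
  | .v (.P false j), h => .pf j (by
      have h' : j + 1 ≤ 2 * M := h
      exact_mod_cast h')
  | .v (.P true j), h => .pt j (by
      have h' : j + 1 ≤ 2 * M := h
      exact_mod_cast h')
  | .v (.U false c), h => .uf c (by
      have h' : c + 1 ≤ M := h
      exact_mod_cast h')
  | .v (.U true c), h => .ut c (by
      have h' : c + 1 ≤ M := h
      exact_mod_cast h')
  | .v (.C false j false), h => .cf j (by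
      have h' : j + 1 + 1 ≤ 2 * M := h
      have h'' : ((j + 1 + 1 : ℕ) : ℝ) ≤ ((2 * M : ℕ) : ℝ) := by exact_mod_cast h'
      push_cast at h''
      linarith)
  | .v (.C false j true), h => .cf' j (by
      have h' : j + 1 + 1 ≤ 2 * M := h
      have h'' : ((j + 1 + 1 : ℕ) : ℝ) ≤ ((2 * M : ℕ) : ℝ) := by exact_mod_cast h'
      push_cast at h''
      linarith)
  | .v (.C true j false), h => .ct j (by
      have h' : j + 1 + 1 ≤ 2 * M := h
      have h'' : ((j + 1 + 1 : ℕ) : ℝ) ≤ ((2 * M : ℕ) : ℝ) := by exact_mod_cast h'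
      push_cast at h''
      linarith)
  | .v (.C true j true), h => .ct' j (by
      have h' : j + 1 + 1 ≤ 2 * M := h
      have h'' : ((j + 1 + 1 : ℕ) : ℝ) ≤ ((2 * M : ℕ) : ℝ) := by exact_mod_cast h'
      push_cast at h''
      linarith)
  | .v .Q, _ => .q
  | .v (.D c r), h => .d c r (by
      have h' : c + 1 ≤ M := h.1
      exact_mod_cast h') (by
      have h' : r + 1 ≤ M := h.2
      exact_mod_cast h')

section

variable {M : ℕ} {n s e w p q : ℝ} {x : GX} (hM : (1 : ℝ) ≤ M) (hn : 2 * M + 3 < n) (hs : 2 * M + 3 < s)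
  (he : 2 * M + 3 < e) (hw : 2 * M + 3 < w)

include hM hn hs he hw

theorem n_ns (h : Kd M n s e w x p q) (h0 : p = 0) (h1 : -s < q) (h2 : q < n) : False := by
  cases h <;> linarith

theorem n_yp (h : Kd M n s e w x p q) (h1 : -s < q) (h2 : q < -1) : False := by
  cases h <;> linarith

theorem n_xu (h : Kd M n s e w x p q) (h1 : 2 * M + 2 < q) (h2 : q < n) : False := by
  cases h <;> linarith

theorem n_xp (h : Kd M n s e w x p q) (h1 : -1 < q) (h2 : q < 0) (h3 : 2 * M < p) : False := by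
  cases h <;> linarith

theorem n_up (h : Kd M n s e w x p q) {c : ℕ} (hc : (c : ℝ) + 1 ≤ M) (h0 : p = 2 * c + 1)
    (h1 : -1 < q) (h2 : q < 2 * M + 2) : False := by
  cases h with
  | cf j hj => exact no_par (a := j + 1) (b := 2 * c + 1) (by push_cast; linarith)
  | cf' j hj => exact no_par (a := j + 1) (b := 2 * c + 1) (by push_cast; linarith)
  | d c' r hc' hr' => exact no_par (a := c) (b := c' + 1) (by push_cast; linarith)
  | _ => linarith

theorem n_pd (h : Kd M n s e w x p q) {c : ℕ} (hc : (c : ℝ) + 1 ≤ M) (h0 : p = 2 * c + 2)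
    (h1 : -1 < q) (h2 : q < 2) : False := by
  cases h with
  | cf j hj => exact no_par (a := j + 1) (b := 2 * c + 2) (by push_cast; linarith)
  | cf' j hj => exact no_par (a := j + 1) (b := 2 * c + 2) (by push_cast; linarith)
  | _ => linarith

theorem n_dd (h : Kd M n s e w x p q) {c r : ℕ} (hc : (c : ℝ) + 1 ≤ M) (hr : (r : ℝ) + 2 ≤ M)
    (h0 : p = 2 * c + 2) (h1 : 2 * r + 2 < q) (h2 : q < 2 * r + 4) : False := by
  have hr0 : (0 : ℝ) ≤ r := Nat.cast_nonneg r
  cases h with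
  | d c' r' hc' hr' => exact no_int (a := r) (b := r') (by linarith) (by linarith)
  | _ => linarith

theorem n_pp (h : Kd M n s e w x p q) {j : ℕ} (h0 : q = -1) (h1 : j + 1 < p) (h2 : p < j + 2) :
    False := by
  cases h with
  | pf j' hj' => exact no_int (a := j) (b := j') (by linarith) (by linarith)
  | _ => linarith

theorem n_pc (h : Kd M n s e w x p q) {j : ℕ} (h0 : -1 < q) (h3 : q < -1 / 2) (h1 : j + 1 < p)
    (h2 : p < j + 3 / 2) : False := by
  cases h with
  | cf' j' hj' => exact no_int (a := j') (b := j) (by linarith) (by linarith)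
  | _ => linarith

theorem n_pc' (h : Kd M n s e w x p q) {j : ℕ} (h0 : -1 < q) (h3 : q < -1 / 2)
    (h1 : j + 3 / 2 < p) (h2 : p < j + 2) : False := by
  cases h with
  | cf' j' hj' => exact no_int (a := j) (b := j') (by linarith) (by linarith)
  | _ => linarith

theorem n_cc (h : Kd M n s e w x p q) (h1 : -3 / 4 < q) (h2 : q < -1 / 2) : False := by
  cases h <;> linarith

theorem n_uu (h : Kd M n s e w x p q) (h0 : p + q = 4 * M + 1) (h1 : 0 < p) (h2 : p < 2 * M + 2)
    (h3 : 0 < q) (h4 : q < 2 * M + 2) : False := by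
  cases h <;> linarith

theorem n_uq (h : Kd M n s e w x p q) (h0 : 2 * M - 1 < p) (h2 : p < 2 * M + 1 / 4)
    (h3 : 2 * M + 1 / 4 < q) (h4 : q < 2 * M + 2) : False := by
  cases h <;> linarith

theorem n_ud (h : Kd M n s e w x p q) (h0 : 2 * M - 1 < p) (h2 : p < 2 * M)
    (h3 : 2 * M < q) (h4 : q < 2 * M + 2) : False := by
  cases h <;> linarith

theorem n_qd (h : Kd M n s e w x p q) (h0 : 2 * M < p) (h2 : p < 2 * M + 1 / 4)
    (h3 : 2 * M < q) (h4 : q < 2 * M + 1 / 4) : False := by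
  cases h <;> linarith

end

theorem cast_2M {M : ℕ} (hM : (1 : ℝ) ≤ M) : ((2 * M - 1 : ℕ) : ℝ) = 2 * M - 1 := by
  have hM' : 1 ≤ M := by exact_mod_cast hM
  rw [Nat.cast_sub (by omega)]
  push_cast
  ring

theorem cast_M {M : ℕ} (hM : (1 : ℝ) ≤ M) : ((M - 1 : ℕ) : ℝ) = M - 1 := by
  have hM' : 1 ≤ M := by exact_mod_cast hM
  rw [Nat.cast_sub (by omega)]
  push_cast
  ring

/-- no vertex lies on the edge `k` -/
def Fr (M : ℕ) (n s e w : ℝ) (k : GF) : Prop :=
  ∀ x : GX, x.ok M → layX M n s e w x ∉ openSegment ℝ (layX M n s e w (k.ends M).1)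
      (layX M n s e w (k.ends M).2)

theorem fr_of {M : ℕ} {n s e w : ℝ} {k : GF}
    (H : ∀ (x : GX) (p q : ℝ), Kd M n s e w x p q →
      Bt (layX M n s e w (k.ends M).1).re (layX M n s e w (k.ends M).2).re p →
      Bt (layX M n s e w (k.ends M).1).im (layX M n s e w (k.ends M).2).im q →
      Bt ((layX M n s e w (k.ends M).1).re + (layX M n s e w (k.ends M).1).im)
        ((layX M n s e w (k.ends M).2).re + (layX M n s e w (k.ends M).2).im) (p + q) → False) :
    Fr M n s e w k := by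
  intro x hx hz
  obtain ⟨b1, b2, b3⟩ := seg_box hz
  exact H x _ _ (kd x hx) b1 b2 b3

def Big (M : ℕ) (n s e w : ℝ) : Prop :=
  (1 : ℝ) ≤ M ∧ 2 * M + 3 < n ∧ 2 * M + 3 < s ∧ 2 * M + 3 < e ∧ 2 * M + 3 < w

section

variable {M : ℕ} {n s e w : ℝ} (h : Big M n s e w)

include h

theorem f_ns : Fr M n s e w .ns := by
  obtain ⟨hM, hn, hs, he, hw⟩ := h
  refine fr_of fun x p q hx b1 b2 b3 => ?_
  simp only [GF.ends, layX] at b1 b2 b3
  obtain ⟨h1, h2⟩ := b2.2.1 (by linarith)
  exact n_ns hM hn hs he hw hx (b1.2.2 rfl) h1 h2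

theorem f_yp (j : ℕ) : Fr M n s e w (.g (.yp false j)) := by
  obtain ⟨hM, hn, hs, he, hw⟩ := h
  refine fr_of fun x p q hx b1 b2 b3 => ?_
  simp only [GF.ends, GE.ends, layX, lay] at b1 b2 b3
  obtain ⟨h1, h2⟩ := b2.1 (by linarith)
  exact n_yp hM hn hs he hw hx h1 h2

theorem f_xu (c : ℕ) : Fr M n s e w (.g (.xu false c)) := by
  obtain ⟨hM, hn, hs, he, hw⟩ := h
  refine fr_of fun x p q hx b1 b2 b3 => ?_
  simp only [GF.ends, GE.ends, layX, lay] at b1 b2 b3
  obtain ⟨h1, h2⟩ := b2.2.1 (by linarith)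
  exact n_xu hM hn hs he hw hx h1 h2

theorem f_xp : Fr M n s e w (.g (.xp false)) := by
  obtain ⟨hM, hn, hs, he, hw⟩ := h
  refine fr_of fun x p q hx b1 b2 b3 => ?_
  simp only [GF.ends, GE.ends, layX, lay, Bool.not_false, cast_2M hM] at b1 b2 b3
  obtain ⟨h1, h2⟩ := b2.2.1 (by linarith)
  obtain ⟨h3, h4⟩ := b1.2.1 (by linarith)
  exact n_xp hM hn hs he hw hx h1 h2 (by linarith)

theorem f_up (c : ℕ) (hc : (c : ℝ) + 1 ≤ M) : Fr M n s e w (.g (.up false c)) := by
  obtain ⟨hM, hn, hs, he, hw⟩ := h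
  refine fr_of fun x p q hx b1 b2 b3 => ?_
  simp only [GF.ends, GE.ends, layX, lay] at b1 b2 b3
  obtain ⟨h1, h2⟩ := b2.2.1 (by linarith)
  exact n_up hM hn hs he hw hx hc (b1.2.2 (by push_cast; ring)) h1 h2

theorem f_pd (c : ℕ) (hc : (c : ℝ) + 1 ≤ M) : Fr M n s e w (.g (.pd false c)) := by
  obtain ⟨hM, hn, hs, he, hw⟩ := h
  refine fr_of fun x p q hx b1 b2 b3 => ?_
  simp only [GF.ends, GE.ends, layX, lay, GN.D', cond_false] at b1 b2 b3
  obtain ⟨h1, h2⟩ := b2.1 (by push_cast; linarith)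
  have h3 := b1.2.2 (by push_cast; ring)
  push_cast at h1 h2 h3
  exact n_pd hM hn hs he hw hx hc (by linarith) h1 (by linarith)

theorem f_dd (c r : ℕ) (hc : (c : ℝ) + 1 ≤ M) (hr : (r : ℝ) + 2 ≤ M) :
    Fr M n s e w (.g (.dd false c r)) := by
  obtain ⟨hM, hn, hs, he, hw⟩ := h
  refine fr_of fun x p q hx b1 b2 b3 => ?_
  simp only [GF.ends, GE.ends, layX, lay, GN.D', cond_false] at b1 b2 b3
  obtain ⟨h1, h2⟩ := b2.1 (by push_cast; linarith)
  have h3 := b1.2.2 rfl
  push_cast at h1 h2 h3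
  exact n_dd hM hn hs he hw hx hc hr (by linarith) h1 (by linarith)

theorem f_pp (j : ℕ) : Fr M n s e w (.g (.pp false j)) := by
  obtain ⟨hM, hn, hs, he, hw⟩ := h
  refine fr_of fun x p q hx b1 b2 b3 => ?_
  simp only [GF.ends, GE.ends, layX, lay] at b1 b2 b3
  obtain ⟨h1, h2⟩ := b1.1 (by push_cast; linarith)
  have h3 := b2.2.2 rfl
  push_cast at h1 h2 h3
  exact n_pp hM hn hs he hw hx h3 h1 (by linarith)

theorem f_pc (j : ℕ) (ε : Bool) : Fr M n s e w (.g (.pc false j ε)) := by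
  obtain ⟨hM, hn, hs, he, hw⟩ := h
  refine fr_of fun x p q hx b1 b2 b3 => ?_
  simp only [GF.ends, GE.ends, layX, lay] at b1 b2 b3
  have hε : (-1 : ℝ) < cond ε (-3 / 4) (-1 / 2) ∧ cond ε (-3 / 4) (-1 / 2) ≤ (-1 / 2 : ℝ) := by
    cases ε <;> norm_num
  obtain ⟨h1, h2⟩ := b1.1 (by linarith)
  obtain ⟨h3, h4⟩ := b2.1 hε.1
  exact n_pc hM hn hs he hw hx (j := j) h3 (by linarith) h1 h2

theorem f_pc' (j : ℕ) (ε : Bool) : Fr M n s e w (.g (.pc' false j ε)) := by
  obtain ⟨hM, hn, hs, he, hw⟩ := h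
  refine fr_of fun x p q hx b1 b2 b3 => ?_
  simp only [GF.ends, GE.ends, layX, lay] at b1 b2 b3
  have hε : (-1 : ℝ) < cond ε (-3 / 4) (-1 / 2) ∧ cond ε (-3 / 4) (-1 / 2) ≤ (-1 / 2 : ℝ) := by
    cases ε <;> norm_num
  obtain ⟨h1, h2⟩ := b1.2.1 (by push_cast; linarith)
  obtain ⟨h3, h4⟩ := b2.1 hε.1
  push_cast at h2
  exact n_pc' hM hn hs he hw hx (j := j) h3 (by linarith) h1 (by linarith)

theorem f_cc (j : ℕ) : Fr M n s e w (.g (.cc false j)) := by
  obtain ⟨hM, hn, hs, he, hw⟩ := h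
  refine fr_of fun x p q hx b1 b2 b3 => ?_
  simp only [GF.ends, GE.ends, layX, lay, cond_false, cond_true] at b1 b2 b3
  obtain ⟨h1, h2⟩ := b2.2.1 (by norm_num)
  exact n_cc hM hn hs he hw hx h1 h2

theorem f_uu : Fr M n s e w (.g .uu) := by
  obtain ⟨hM, hn, hs, he, hw⟩ := h
  refine fr_of fun x p q hx b1 b2 b3 => ?_
  simp only [GF.ends, GE.ends, layX, lay, cast_M hM] at b1 b2 b3
  obtain ⟨h1, h2⟩ := b1.1 (by linarith)
  obtain ⟨h3, h4⟩ := b2.2.1 (by linarith)
  have h5 := b3.2.2 (by ring)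
  exact n_uu hM hn hs he hw hx (by linarith) (by linarith) (by linarith) (by linarith)
    (by linarith)

theorem f_uq : Fr M n s e w (.g (.uq false)) := by
  obtain ⟨hM, hn, hs, he, hw⟩ := h
  refine fr_of fun x p q hx b1 b2 b3 => ?_
  simp only [GF.ends, GE.ends, layX, lay, cast_M hM] at b1 b2 b3
  obtain ⟨h1, h2⟩ := b1.1 (by linarith)
  obtain ⟨h3, h4⟩ := b2.2.1 (by linarith)
  exact n_uq hM hn hs he hw hx (by linarith) (by linarith) (by linarith) (by linarith)

theorem f_ud : Fr M n s e w (.g (.ud false)) := by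
  obtain ⟨hM, hn, hs, he, hw⟩ := h
  refine fr_of fun x p q hx b1 b2 b3 => ?_
  simp only [GF.ends, GE.ends, layX, lay, cast_M hM] at b1 b2 b3
  obtain ⟨h1, h2⟩ := b1.1 (by linarith)
  obtain ⟨h3, h4⟩ := b2.2.1 (by linarith)
  exact n_ud hM hn hs he hw hx (by linarith) (by linarith) (by linarith) (by linarith)

theorem f_qd : Fr M n s e w (.g .qd) := by
  obtain ⟨hM, hn, hs, he, hw⟩ := h
  refine fr_of fun x p q hx b1 b2 b3 => ?_
  simp only [GF.ends, GE.ends, layX, lay, cast_M hM] at b1 b2 b3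
  obtain ⟨h1, h2⟩ := b1.2.1 (by linarith)
  obtain ⟨h3, h4⟩ := b2.2.1 (by linarith)
  exact n_qd hM hn hs he hw hx (by linarith) (by linarith) (by linarith) (by linarith)

end

/-- reflection in the diagonal -/
def mir (z : ℂ) : ℂ := ⟨z.im, z.re⟩

theorem layX_swap (M : ℕ) (n s e w : ℝ) (x : GX) :
    layX M n s e w x.swap = mir (layX M e w n s x) := by
  rcases x with ((_ | _) | (_ | _) | ((⟨_ | _, j⟩) | (⟨_ | _, j⟩) | (⟨_ | _, j, ε⟩) | _ | _)) <;>
    simp [layX, lay, GX.swap, GN.swap, mir]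

theorem mir_seg {z a b : ℂ} (h : mir z ∈ openSegment ℝ (mir a) (mir b)) :
    z ∈ openSegment ℝ a b := by
  obtain ⟨p, q, hp, hq, hpq, hz⟩ := h
  refine ⟨p, q, hp, hq, hpq, ?_⟩
  have h1 := congrArg Complex.re hz
  have h2 := congrArg Complex.im hz
  simp [mir] at h1 h2
  apply Complex.ext <;> simp [h1, h2]

def gswap : GF → GF
  | .ns => .ew
  | .ew => .ns
  | .g c => .g c.swap

theorem gswap_ends (M : ℕ) (k : GF) :
    s(((gswap k).ends M).1, ((gswap k).ends M).2) = s((k.ends M).1.swap, (k.ends M).2.swap) := by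
  cases k with
  | ns => rfl
  | ew => rfl
  | g c => exact GE.ends_swap M c

theorem fr_swap {M : ℕ} {n s e w : ℝ} {k : GF} (h : Fr M e w n s k) :
    Fr M n s e w (gswap k) := by
  intro x hx hz
  have hx' : x.swap.ok M := by
    rcases x with _ | _ | x
    · trivial
    · trivial
    · exact GN.ok_swap.2 hx
  have e1 : layX M n s e w x = mir (layX M e w n s x.swap) := by
    rw [← layX_swap, GX.swap_swap]
  apply h x.swap hx'
  rcases Sym2.eq_iff.1 (gswap_ends M k) with ⟨h1, h2⟩ | ⟨h1, h2⟩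
  · rw [h1, h2, e1, layX_swap, layX_swap] at hz
    exact mir_seg hz
  · rw [h1, h2, e1, layX_swap, layX_swap, openSegment_symm] at hz
    exact mir_seg hz

theorem fr_all {M : ℕ} {n s e w : ℝ} (h : Big M n s e w) (k : GF) (hk : k.valid M) :
    Fr M n s e w k := by
  have h' : Big M e w n s := ⟨h.1, h.2.2.2.1, h.2.2.2.2, h.2.1, h.2.2.1⟩
  have ca : ∀ c : ℕ, c < M → (c : ℝ) + 1 ≤ M := fun c hc => by exact_mod_cast hc
  have cb : ∀ c : ℕ, c + 1 < M → (c : ℝ) + 2 ≤ M := fun c hc => by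
    have : ((c + 1 + 1 : ℕ) : ℝ) ≤ M := by exact_mod_cast hc
    push_cast at this
    linarith
  rcases k with _ | _ | k
  · exact f_ns h
  · exact fr_swap (k := .ns) (f_ns h')
  · rcases k with ⟨_ | _, j⟩ | ⟨_ | _, c⟩ | (_ | _) | ⟨_ | _, c⟩ | ⟨_ | _, c⟩ | ⟨_ | _, c, r⟩ |
      ⟨_ | _, j⟩ | ⟨_ | _, j, ε⟩ | ⟨_ | _, j, ε⟩ | ⟨_ | _, j⟩ | _ | (_ | _) | (_ | _) | _
    · exact f_yp h j
    · exact fr_swap (k := .g (.yp false j)) (f_yp h' j)
    · exact f_xu h c
    · exact fr_swap (k := .g (.xu false c)) (f_xu h' c)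
    · exact f_xp h
    · exact fr_swap (k := .g (.xp false)) (f_xp h')
    · exact f_up h c (ca c hk)
    · exact fr_swap (k := .g (.up false c)) (f_up h' c (ca c hk))
    · exact f_pd h c (ca c hk)
    · exact fr_swap (k := .g (.pd false c)) (f_pd h' c (ca c hk))
    · exact f_dd h c r (ca c hk.1) (cb r hk.2)
    · exact fr_swap (k := .g (.dd false c r)) (f_dd h' c r (ca c hk.1) (cb r hk.2))
    · exact f_pp h j
    · exact fr_swap (k := .g (.pp false j)) (f_pp h' j)
    · exact f_pc h j ε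
    · exact fr_swap (k := .g (.pc false j ε)) (f_pc h' j ε)
    · exact f_pc' h j ε
    · exact fr_swap (k := .g (.pc' false j ε)) (f_pc' h' j ε)
    · exact f_cc h j
    · exact fr_swap (k := .g (.cc false j)) (f_cc h' j)
    · exact f_uu h
    · exact f_uq h
    · exact fr_swap (k := .g (.uq false)) (f_uq h')
    · exact f_ud h
    · exact fr_swap (k := .g (.ud false)) (f_ud h')
    · exact f_qd h

end LV

theorem layout_vtx {M : ℕ} (hM : 1 ≤ M) {n s e w : ℝ} (hn : 2 * M + 3 < n) (hs : 2 * M + 3 < s)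
    (he : 2 * M + 3 < e) (hw : 2 * M + 3 < w) : ∀ k : GF, k.valid M → ∀ x : GX, x.ok M →
    x ≠ (k.ends M).1 → x ≠ (k.ends M).2 →
    layX M n s e w x ∉ openSegment ℝ (layX M n s e w (k.ends M).1)
      (layX M n s e w (k.ends M).2) := by
  intro k hk x hx _ _
  exact LV.fr_all ⟨by exact_mod_cast hM, hn, hs, he, hw⟩ k hk x hx

namespace LV

theorem kd_inj {M : ℕ} {n s e w p q : ℝ} (hM : (1 : ℝ) ≤ M) (hn : 2 * M + 3 < n)
    (hs : 2 * M + 3 < s) (he : 2 * M + 3 < e) (hw : 2 * M + 3 < w) {x y : GX}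
    (hx : Kd M n s e w x p q) {p' q' : ℝ} (hy : Kd M n s e w y p' q') (h1 : p = p')
    (h2 : q = q') : x = y := by
  cases hx with
  | xf => cases hy with
    | xf => rfl
    | _ => exfalso; linarith
  | xt => cases hy with
    | xt => rfl
    | _ => exfalso; linarith
  | yf => cases hy with
    | yf => rfl
    | _ => exfalso; linarith
  | yt => cases hy with
    | yt => rfl
    | _ => exfalso; linarith
  | pf j hj => cases hy with
    | pf j' hj' =>
      have e1 : (j : ℝ) = j' := by linarith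
      rw [Nat.cast_injective e1]
    | _ => exfalso; linarith
  | pt j hj => cases hy with
    | pt j' hj' =>
      have e1 : (j : ℝ) = j' := by linarith
      rw [Nat.cast_injective e1]
    | _ => exfalso; linarith
  | uf j hj => cases hy with
    | uf j' hj' =>
      have e1 : (j : ℝ) = j' := by linarith
      rw [Nat.cast_injective e1]
    | _ => exfalso; linarith
  | ut j hj => cases hy with
    | ut j' hj' =>
      have e1 : (j : ℝ) = j' := by linarith
      rw [Nat.cast_injective e1]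
    | _ => exfalso; linarith
  | cf j hj => cases hy with
    | cf j' hj' =>
      have e1 : (j : ℝ) = j' := by linarith
      rw [Nat.cast_injective e1]
    | _ => exfalso; linarith
  | cf' j hj => cases hy with
    | cf' j' hj' =>
      have e1 : (j : ℝ) = j' := by linarith
      rw [Nat.cast_injective e1]
    | _ => exfalso; linarith
  | ct j hj => cases hy with
    | ct j' hj' =>
      have e1 : (j : ℝ) = j' := by linarith
      rw [Nat.cast_injective e1]
    | _ => exfalso; linarith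
  | ct' j hj => cases hy with
    | ct' j' hj' =>
      have e1 : (j : ℝ) = j' := by linarith
      rw [Nat.cast_injective e1]
    | _ => exfalso; linarith
  | q => cases hy with
    | q => rfl
    | _ => exfalso; linarith
  | d c r hc hr => cases hy with
    | d c' r' hc' hr' =>
      have e1 : (c : ℝ) = c' := by linarith
      have e2 : (r : ℝ) = r' := by linarith
      rw [Nat.cast_injective e1, Nat.cast_injective e2]
    | _ => exfalso; linarith

end LV

theorem layout_inj {M : ℕ} (hM : 1 ≤ M) {n s e w : ℝ} (hn : 2 * M + 3 < n) (hs : 2 * M + 3 < s)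
    (he : 2 * M + 3 < e) (hw : 2 * M + 3 < w) : ∀ x y : GX, x.ok M → y.ok M →
    layX M n s e w x = layX M n s e w y → x = y := by
  intro x y hx hy h
  exact LV.kd_inj (by exact_mod_cast hM) hn hs he hw (LV.kd x hx) (LV.kd y hy)
    (congrArg Complex.re h) (congrArg Complex.im h)

end Pool.Agent.Helper82.DG
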