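import Pool.Agent.Helper82.DG.Part3
import Pool.Agent.Helper18.RAC.Main2
import Pool.Agent.Helper40.DG.Insert

/-!
# The drawing of the core with the grids
-/

set_option autoImplicit false

namespace Pool.Agent.Helper82.DG

open Pool.Agent.Helper18.RAC Complex

variable {V : Type*}

namespace DW

theorem core_code {a b : V} {p : ℕ → V} {m : ℕ} {u v : V}
    (h : (SimpleGraph.fromEdgeSet (coreE a b p m)).Adj u v) :
    ∃ c : Code, c.valid m ∧ s(u, v) = s((c.ends a b p).1, (c.ends a b p).2) := by
  rw [SimpleGraph.fromEdgeSet_adj] at h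
  exact h.1

theorem seg_of_sym {f : V → ℂ} {u v u' v' : V} {z : ℂ} (he : s(u, v) = s(u', v'))
    (hz : z ∈ openSegment ℝ (f u) (f v)) : z ∈ openSegment ℝ (f u') (f v') := by
  rcases Sym2.eq_iff.1 he with ⟨h1, h2⟩ | ⟨h1, h2⟩
  · rw [← h1, ← h2]; exact hz
  · rw [← h1, ← h2, openSegment_symm]; exact hz

/-- the two crossing codes at the place `i` -/
def cH (i : ℕ) : Code := if i % 2 = 0 then .B (i + 1) else .A (i + 1)

theorem cH_ends (a b : V) (p : ℕ → V) (i : ℕ) :
    (cH i).ends a b p = (if i % 2 = 0 then b else a, p (i + 1)) := by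
  unfold cH
  split_ifs <;> rfl

theorem cH_valid {m i : ℕ} (hi : i + 2 < m) : (cH i).valid m := by
  unfold cH
  split_ifs
  · show i + 1 < m
    omega
  · show i + 1 < m
    omega

theorem crossing_iff {c c' : Code} : Crossing c c' ↔ ∃ k, c = cH k ∧ c' = .I k (k + 2) := by
  constructor
  · rintro (⟨k, h0, h1, h2⟩ | ⟨k, h0, h1, h2⟩)
    · refine ⟨k, ?_, h2⟩
      unfold cH
      rw [if_neg (by omega), h1]
    · refine ⟨k, ?_, h2⟩
      unfold cH
      rw [if_pos (by omega), h1]
  · rintro ⟨k, h1, h2⟩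
    unfold cH at h1
    split_ifs at h1 with h0
    · exact Or.inr ⟨k, by omega, h1, h2⟩
    · exact Or.inl ⟨k, by omega, h1, h2⟩

theorem cH_ne_I (k i j : ℕ) : cH k ≠ .I i j := by
  unfold cH
  split_ifs <;> intro h <;> cases h

theorem cH_inj {k i : ℕ} (h : cH k = cH i) : k = i := by
  unfold cH at h
  split_ifs at h <;> cases h <;> rfl

theorem meet {f : V → ℂ} {a b : V} {p : ℕ → V} {m : ℕ} {x y : ℕ → ℝ}
    (h : CD f a b p m x y) {i : ℕ} (hi : i + 2 < m) :
    ∃ q, q ∈ openSegment ℝ (f (if i % 2 = 0 then b else a)) (f (p (i + 1))) ∧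
      q ∈ openSegment ℝ (f (p i)) (f (p (i + 2))) := by
  have i0 := h.im (show i < m by omega)
  have i1 := h.im (show i + 1 < m by omega)
  have i2 := h.im hi
  have l01 := h.ok.lt (show i < i + 1 by omega) (show i + 1 < m by omega)
  have l12 := h.ok.lt (show i + 1 < i + 2 by omega) hi
  rcases Nat.mod_two_eq_zero_or_one i with h0 | h0
  · rw [if_pos h0]
    have ho := (h.ok.odd i hi (by omega)).2
    unfold OrC at ho
    have hd : 0 < y i - y (i + 2) := by linarith [l01.2, l12.2]
    set l : ℝ := (y (i + 1) - y (i + 2)) / (y i - y (i + 2)) with hl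
    have hl1 : l * (y i - y (i + 2)) = y (i + 1) - y (i + 2) := by
      rw [hl]; field_simp
    have hl0 : 0 < l := div_pos (by linarith [l12.2]) hd
    have hl2 : l < 1 := by
      rw [hl, div_lt_one hd]; linarith [l01.2]
    obtain ⟨v, hv, v0, v1, v2⟩ := exists_mem_seg i0 i2 hl0 hl2
    rw [h.xc (show i < m by omega), h.xc hi] at v1
    rw [h.yc (show i < m by omega), h.yc hi] at v2
    refine ⟨v, ?_, hv⟩
    rw [h.fb]
    refine mem_spoke_b v0 i1 ?_ ?_
    · rw [h.yc (show i + 1 < m by omega), v2]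
      linarith
    · rw [h.xc (show i + 1 < m by omega), v1]
      have h5 : (x (i + 1) - x (i + 2)) * (y i - y (i + 2)) <
          (l * (x i - x (i + 2))) * (y i - y (i + 2)) := by
        have e : (l * (x i - x (i + 2))) * (y i - y (i + 2)) =
            (y (i + 1) - y (i + 2)) * (x i - x (i + 2)) := by
          rw [← hl1]; ring
        rw [e]
        linarith
      have h6 := lt_of_mul_lt_mul_right h5 hd.le
      linarith
  · rw [if_neg (by omega)]
    have ho := (h.ok.even i hi (by omega)).2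
    unfold OrC at ho
    have hd : 0 < x i - x (i + 2) := by linarith [l01.1, l12.1]
    set l : ℝ := (x (i + 1) - x (i + 2)) / (x i - x (i + 2)) with hl
    have hl1 : l * (x i - x (i + 2)) = x (i + 1) - x (i + 2) := by
      rw [hl]; field_simp
    have hl0 : 0 < l := div_pos (by linarith [l12.1]) hd
    have hl2 : l < 1 := by
      rw [hl, div_lt_one hd]; linarith [l01.1]
    obtain ⟨v, hv, v0, v1, v2⟩ := exists_mem_seg i0 i2 hl0 hl2
    rw [h.xc (show i < m by omega), h.xc hi] at v1
    rw [h.yc (show i < m by omega), h.yc hi] at v2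
    refine ⟨v, ?_, hv⟩
    rw [h.fa]
    refine mem_spoke_a v0 i1 ?_ ?_
    · rw [h.xc (show i + 1 < m by omega), v1]
      linarith
    · rw [h.yc (show i + 1 < m by omega), v2]
      have h5 : (y (i + 1) - y (i + 2)) * (x i - x (i + 2)) <
          (l * (y i - y (i + 2))) * (x i - x (i + 2)) := by
        have e : (l * (y i - y (i + 2))) * (x i - x (i + 2)) =
            (x (i + 1) - x (i + 2)) * (y i - y (i + 2)) := by
          rw [← hl1]; ring
        rw [e]
        linarith
      have h6 := lt_of_mul_lt_mul_right h5 hd.le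
      linarith

end DW

open DW in
/-- the kites of the drawing of the core -/
theorem core_xcross {f : V → ℂ} {a b : V} {p : ℕ → V} {m : ℕ} {x y : ℕ → ℝ}
    (h : CD f a b p m x y) {i : ℕ} (hi : i + 2 < m) :
    XCross (SimpleGraph.fromEdgeSet (coreE a b p m)) f (if i % 2 = 0 then b else a) (p (i + 1))
      (p (i + 2)) (p i) := by
  have hne : ∀ {c : Code}, c.valid m → (c.ends a b p).1 ≠ (c.ends a b p).2 := by
    intro c hc he
    cases c with
    | ab =>
      simp only [Code.ends] at he
      have := h.fa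
      rw [he, h.fb] at this
      exact one_ne_zero this
    | A j =>
      simp only [Code.ends] at he
      have := h.im hc
      rw [← he, h.fa] at this
      simp at this
    | B j =>
      simp only [Code.ends] at he
      have := h.im hc
      rw [← he, h.fb] at this
      simp at this
    | I j k =>
      simp only [Code.ends] at he
      have h1 := (h.ok.lt hc.1 hc.2.2).1
      rw [← h.xc hc.2.2, ← h.xc (hc.1.trans hc.2.2), he] at h1
      exact lt_irrefl _ h1
  have hvH := cH_valid hi
  have hvI : (Code.I i (i + 2)).valid m := ⟨by omega, le_rfl, hi⟩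
  have e1 := cH_ends a b p i
  have hnH := hne hvH
  have hnI := hne hvI
  rw [e1] at hnH
  simp only [Code.ends] at hnI
  have key : ∀ u v z, (SimpleGraph.fromEdgeSet (coreE a b p m)).Adj u v →
      z ∈ openSegment ℝ (f u) (f v) → ∀ c : Code, c.valid m →
      z ∈ openSegment ℝ (f (c.ends a b p).1) (f (c.ends a b p).2) →
      s(u, v) ≠ s((c.ends a b p).1, (c.ends a b p).2) → ∃ c' : Code, c'.valid m ∧
        s(u, v) = s((c'.ends a b p).1, (c'.ends a b p).2) ∧ (Crossing c c' ∨ Crossing c' c) := by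
    intro u v z huv hz c hc hz' hneq
    obtain ⟨c', hc', he⟩ := core_code huv
    refine ⟨c', hc', he, h.crossing hc hc' ?_ hz' (seg_of_sym he hz)⟩
    rintro rfl
    exact hneq he
  refine ⟨?_, ?_, ?_, ?_, ?_⟩
  · rw [SimpleGraph.fromEdgeSet_adj]
    exact ⟨⟨cH i, hvH, by rw [e1]⟩, hnH⟩
  · rw [SimpleGraph.fromEdgeSet_adj]
    exact ⟨⟨.I i (i + 2), hvI, Sym2.eq_swap⟩, fun he => hnI he.symm⟩
  · intro he
    rcases Sym2.eq_iff.1 he with ⟨-, h2⟩ | ⟨-, h2⟩
    · have h3 := (h.ok.lt (show i < i + 1 by omega) (by omega)).1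
      rw [← h.xc (show i + 1 < m by omega), ← h.xc (show i < m by omega), h2] at h3
      exact lt_irrefl _ h3
    · have h3 := (h.ok.lt (show i + 1 < i + 2 by omega) hi).1
      rw [← h.xc (show i + 1 < m by omega), ← h.xc hi, h2] at h3
      exact lt_irrefl _ h3
  · obtain ⟨q, h1, h2⟩ := meet h hi
    exact ⟨q, h1, by rw [openSegment_symm]; exact h2⟩
  · intro u v huv hn1 hn2 z hz
    constructor
    · intro hz'
      obtain ⟨c', hc', he, hcr⟩ := key u v z huv hz (cH i) hvH (by rw [e1]; exact hz')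
        (by rw [e1]; exact hn1)
      rcases hcr with hcr | hcr
      · obtain ⟨k, h1, h2⟩ := crossing_iff.1 hcr
        have hk := cH_inj h1
        subst hk
        subst h2
        apply hn2
        rw [he]
        exact Sym2.eq_swap
      · obtain ⟨k, h1, h2⟩ := crossing_iff.1 hcr
        exact cH_ne_I _ _ _ h2
    · intro hz'
      obtain ⟨c', hc', he, hcr⟩ := key u v z huv hz (.I i (i + 2)) hvI
        (by rw [openSegment_symm]; exact hz') (fun hh => hn2 (by rw [hh]; exact Sym2.eq_swap))
      rcases hcr with hcr | hcr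
      · obtain ⟨k, h1, h2⟩ := crossing_iff.1 hcr
        exact cH_ne_I _ _ _ h1.symm
      · obtain ⟨k, h1, h2⟩ := crossing_iff.1 hcr
        injection h2 with h3 h4
        subst h3
        subst h1
        apply hn1
        rw [he, e1]

namespace DW

theorem D'_ok {M : ℕ} {σ : Bool} {c r : ℕ} (hc : c < M) (hr : r < M) : (GN.D' σ c r).ok M := by
  cases σ
  · exact ⟨hc, hr⟩
  · exact ⟨hr, hc⟩

/-- the ends of an edge of a grid are corners or used names -/
theorem ends_ok {M : ℕ} (hM : 1 ≤ M) {c : GE} (hc : c.valid M) :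
    (∀ x, (c.ends M).1 = .v x → x.ok M) ∧ ∀ x, (c.ends M).2 = .v x → x.ok M := by
  cases c with
  | yp σ j =>
    refine ⟨fun x h => (by cases h), fun x h => ?_⟩
    injection h with h; subst h; exact hc
  | xu σ c =>
    refine ⟨fun x h => (by cases h), fun x h => ?_⟩
    injection h with h; subst h; exact hc
  | xp σ =>
    refine ⟨fun x h => (by cases h), fun x h => ?_⟩
    injection h with h; subst h; show 2 * M - 1 < 2 * M; omega
  | up σ c =>
    have hc' : c < M := hc
    refine ⟨fun x h => ?_, fun x h => ?_⟩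
    · injection h with h; subst h; exact hc
    · injection h with h; subst h; show 2 * c < 2 * M; omega
  | pd σ c =>
    have hc' : c < M := hc
    refine ⟨fun x h => ?_, fun x h => ?_⟩
    · injection h with h; subst h; show 2 * c + 1 < 2 * M; omega
    · injection h with h; subst h; exact D'_ok hc' (by omega)
  | dd σ c r =>
    obtain ⟨h1, h2⟩ : c < M ∧ r + 1 < M := hc
    refine ⟨fun x h => ?_, fun x h => ?_⟩
    · injection h with h; subst h; exact D'_ok h1 (by omega)
    · injection h with h; subst h; exact D'_ok h1 h2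
  | pp σ j =>
    have hc' : j + 1 < 2 * M := hc
    refine ⟨fun x h => ?_, fun x h => ?_⟩
    · injection h with h; subst h; show j < 2 * M; omega
    · injection h with h; subst h; exact hc'
  | pc σ j ε =>
    have hc' : j + 1 < 2 * M := hc
    refine ⟨fun x h => ?_, fun x h => ?_⟩
    · injection h with h; subst h; show j < 2 * M; omega
    · injection h with h; subst h; exact hc'
  | pc' σ j ε =>
    have hc' : j + 1 < 2 * M := hc
    refine ⟨fun x h => ?_, fun x h => ?_⟩
    · injection h with h; subst h; exact hc'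
    · injection h with h; subst h; exact hc'
  | cc σ j =>
    have hc' : j + 1 < 2 * M := hc
    refine ⟨fun x h => ?_, fun x h => ?_⟩
    · injection h with h; subst h; exact hc'
    · injection h with h; subst h; exact hc'
  | uu =>
    refine ⟨fun x h => ?_, fun x h => ?_⟩
    · injection h with h; subst h; show M - 1 < M; omega
    · injection h with h; subst h; show M - 1 < M; omega
  | uq σ =>
    refine ⟨fun x h => ?_, fun x h => ?_⟩
    · injection h with h; subst h; show M - 1 < M; omega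
    · injection h with h; subst h; trivial
  | ud σ =>
    refine ⟨fun x h => ?_, fun x h => ?_⟩
    · injection h with h; subst h; show M - 1 < M; omega
    · injection h with h; subst h; exact ⟨by show M - 1 < M; omega, by show M - 1 < M; omega⟩
  | qd =>
    refine ⟨fun x h => ?_, fun x h => ?_⟩
    · injection h with h; subst h; trivial
    · injection h with h; subst h; exact ⟨by show M - 1 < M; omega, by show M - 1 < M; omega⟩

section

variable {a b : V} {p : ℕ → V} {κ : ℕ → GX → V} {m K M : ℕ}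

theorem corner_core (hl : LayD a b p κ m K M) {i : ℕ} (hi : i < K) (c : GX)
    (hc : ∀ x, c ≠ .v x) : κ i c = a ∨ κ i c = b ∨ ∃ j < m, κ i c = p j := by
  have hm := hl.hm
  rcases c with (_ | _) | (_ | _) | x
  · rw [hl.kN i hi]
    split_ifs
    · exact Or.inr (Or.inl rfl)
    · exact Or.inl rfl
  · exact Or.inr (Or.inr ⟨i + 2, by omega, hl.kE i hi⟩)
  · exact Or.inr (Or.inr ⟨i + 1, by omega, hl.kS i hi⟩)
  · exact Or.inr (Or.inr ⟨i, by omega, hl.kW i hi⟩)
  · exact absurd rfl (hc x)

/-- a vertex of the grid `t` is not an end of another edge -/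
theorem ne_core (hl : LayD a b p κ m K M) {t : ℕ} (ht : t < K) {x : GN} (hx : x.ok M) {v : V}
    (hv : v = a ∨ v = b ∨ ∃ j < m, v = p j) : κ t (.v x) ≠ v := by
  obtain ⟨h1, h2, h3⟩ := hl.nc t ht x hx
  rcases hv with rfl | rfl | ⟨j, hj, rfl⟩
  · exact h1
  · exact h2
  · exact h3 j hj

theorem ne_grid (hl : LayD a b p κ m K M) {t : ℕ} (ht : t < K) {x : GN} (hx : x.ok M) {i : ℕ}
    (hi : i < K) (hit : i ≠ t) (c : GX) (hc : ∀ y, c = .v y → y.ok M) :
    κ t (.v x) ≠ κ i c := by
  rcases c with σ | σ | y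
  · exact ne_core hl ht hx (corner_core hl hi (.X σ) fun z hz => by cases hz)
  · exact ne_core hl ht hx (corner_core hl hi (.Y σ) fun z hz => by cases hz)
  · intro he
    exact hit (hl.kinj t ht i hi x y hx (hc y rfl) he).1.symm

theorem iso (hl : LayD a b p κ m K M) {t : ℕ} (ht : t < K) {x : GN} (hx : x.ok M) (v : V) :
    ¬ (GDt a b p κ m M t).Adj (κ t (.v x)) v := by
  intro hadj
  unfold GDt at hadj
  rw [SimpleGraph.fromEdgeSet_adj] at hadj
  have hM := hl.hM
  rcases hadj.1 with ⟨c, hc, he⟩ | ⟨i, hi, c, hc, he⟩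
  · have h1 : κ t (.v x) ≠ (c.ends a b p).1 ∧ κ t (.v x) ≠ (c.ends a b p).2 := by
      cases c with
      | ab => exact ⟨ne_core hl ht hx (Or.inl rfl), ne_core hl ht hx (Or.inr (Or.inl rfl))⟩
      | A j => exact ⟨ne_core hl ht hx (Or.inl rfl),
          ne_core hl ht hx (Or.inr (Or.inr ⟨j, hc, rfl⟩))⟩
      | B j => exact ⟨ne_core hl ht hx (Or.inr (Or.inl rfl)),
          ne_core hl ht hx (Or.inr (Or.inr ⟨j, hc, rfl⟩))⟩
      | I j k => exact ⟨ne_core hl ht hx (Or.inr (Or.inr ⟨j, hc.1.trans hc.2.2, rfl⟩)),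
          ne_core hl ht hx (Or.inr (Or.inr ⟨k, hc.2.2, rfl⟩))⟩
    rcases Sym2.eq_iff.1 he with ⟨h2, -⟩ | ⟨h2, -⟩
    · exact h1.1 h2
    · exact h1.2 h2
  · obtain ⟨o1, o2⟩ := ends_ok (by omega : 1 ≤ M) hc
    rcases Sym2.eq_iff.1 he with ⟨h2, -⟩ | ⟨h2, -⟩
    · exact ne_grid hl ht hx (hi.trans ht) hi.ne _ o1 h2
    · exact ne_grid hl ht hx (hi.trans ht) hi.ne _ o2 h2

theorem GDt_zero : GDt a b p κ m M 0 = SimpleGraph.fromEdgeSet (coreE a b p m) := by
  unfold GDt
  congr 1
  ext e
  simp

theorem GDt_succ (t : ℕ) : GDt a b p κ m M (t + 1) =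
    GDt a b p κ m M t ⊔ SimpleGraph.fromEdgeSet (gridE (κ t) M) := by
  unfold GDt
  rw [← SimpleGraph.fromEdgeSet_union]
  congr 1
  ext e
  simp only [Set.mem_union, Set.mem_ofPred_eq]
  constructor
  · rintro (h | ⟨i, hi, h⟩)
    · exact Or.inl (Or.inl h)
    · rcases Nat.lt_succ_iff_lt_or_eq.1 hi with h1 | h1
      · exact Or.inl (Or.inr ⟨i, h1, h⟩)
      · subst h1
        exact Or.inr h
  · rintro ((h | ⟨i, hi, h⟩) | h)
    · exact Or.inl h
    · exact Or.inr ⟨i, hi.trans (Nat.lt_succ_self t), h⟩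
    · exact Or.inr ⟨t, Nat.lt_succ_self t, h⟩

theorem iter [Finite V] (hl : LayD a b p κ m K M) : ∀ t, t ≤ K → ∃ f : V → ℂ,
    IsRAC (GDt a b p κ m M t) f ∧ ∀ i, t ≤ i → i < K →
      XCross (GDt a b p κ m M t) f (κ i (.X false)) (κ i (.Y false)) (κ i (.X true))
        (κ i (.Y true)) := by
  have hm := hl.hm
  have hM := hl.hM
  intro t
  induction t with
  | zero =>
    intro _
    obtain ⟨x, y, hok⟩ := exists_seq m
    obtain ⟨f, hcd⟩ := exists_CD hl.ab hl.pa hl.pb hl.pinj hok
    refine ⟨f, by rw [GDt_zero]; exact hcd.rac, ?_⟩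
    intro i _ hi
    rw [GDt_zero, hl.kN i hi, hl.kE i hi, hl.kS i hi, hl.kW i hi]
    exact core_xcross hcd (by omega)
  | succ t ih =>
    intro ht
    have htK : t < K := ht
    obtain ⟨f, hf, hx⟩ := ih (by omega)
    obtain ⟨f', hf', hx'⟩ := insert_grid hf (κ := κ t) (M := M) (by omega)
      (hx t le_rfl (by omega))
      (fun x y hx hy he => (hl.kinj t htK t htK x y hx hy he).2)
      (fun x hx v => iso hl htK hx v)
    refine ⟨f', by rw [GDt_succ]; exact hf', ?_⟩
    intro i hi hiK
    rw [GDt_succ]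
    have hub : ∀ i j, j < m → (if i % 2 = 0 then b else a) ≠ p j := by
      intro i j hj
      split_ifs
      · exact (hl.pb j hj).symm
      · exact (hl.pa j hj).symm
    have pin := hl.pinj
    apply hx' _ _ _ _ (hx i (by omega) hiK)
    · rw [hl.kN i hiK, hl.kS i hiK, hl.kN t htK, hl.kS t htK]
      intro he
      rcases Sym2.eq_iff.1 he with ⟨-, h2⟩ | ⟨h1, -⟩
      · have := pin _ (by omega) _ (by omega) h2
        omega
      · exact hub i _ (by omega) h1
    · rw [hl.kN i hiK, hl.kS i hiK, hl.kE t htK, hl.kW t htK]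
      intro he
      rcases Sym2.eq_iff.1 he with ⟨h1, -⟩ | ⟨h1, -⟩
      · exact hub i _ (by omega) h1
      · exact hub i _ (by omega) h1
    · rw [hl.kE i hiK, hl.kW i hiK, hl.kN t htK, hl.kS t htK]
      intro he
      rcases Sym2.eq_iff.1 he with ⟨h1, -⟩ | ⟨-, h1⟩
      · exact hub t _ (by omega) h1.symm
      · exact hub t _ (by omega) h1.symm
    · rw [hl.kE i hiK, hl.kW i hiK, hl.kE t htK, hl.kW t htK]
      intro he
      rcases Sym2.eq_iff.1 he with ⟨h1, -⟩ | ⟨h1, h2⟩
      · have := pin _ (by omega) _ (by omega) h1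
        omega
      · have e1 := pin _ (by omega) _ (by omega) h1
        have e2 := pin _ (by omega) _ (by omega) h2
        omega

end

end DW

/-- iteration of `insert_grid` -/
theorem LayD.rac [Finite V] {a b : V} {p : ℕ → V} {κ : ℕ → GX → V} {m K M : ℕ}
    (hl : LayD a b p κ m K M) : ∃ f : V → ℂ, IsRAC (GDt a b p κ m M K) f := by
  obtain ⟨f, hf, -⟩ := DW.iter hl K le_rfl
  exact ⟨f, hf⟩

end Pool.Agent.Helper82.DG
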